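import Mathlib

namespace Pool.Agent.MP_578b47_co

/-- `G` (given by its edge set, on vertex type `V`) contains a copy of `F` (on vertex type `W`):
an injective vertex map sends every edge of `F` to an edge of `G`. -/
def ContainsCopy {W V : Type} [DecidableEq V] (F : Finset (Finset W)) (G : Finset (Finset V)) :
    Prop :=
  ∃ f : W → V, Function.Injective f ∧ ∀ e ∈ F, e.image f ∈ G

/-- `G` is an `F`-saturated `r`-graph on the vertex set `Fin n`. -/
def IsSaturated {W : Type} (r : ℕ) (F : Finset (Finset W)) {n : ℕ}
    (G : Finset (Finset (Fin n))) : Prop :=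
  (∀ e ∈ G, e.card = r) ∧ ¬ ContainsCopy F G ∧
    ∀ e : Finset (Fin n), e.card = r → e ∉ G → ContainsCopy F (insert e G)

/-- The least number of edges of an `F`-saturated `r`-graph on `n` vertices. -/
noncomputable def sat {W : Type} (r : ℕ) (F : Finset (Finset W)) (n : ℕ) : ℕ :=
  sInf {m : ℕ | ∃ G : Finset (Finset (Fin n)), IsSaturated r F G ∧ G.card = m}

/-- The `r`-graph on `Fin r × Fin k`: all `r`-subsets of each fibre `{i} × Fin k`, and the one
further edge `{(i, 0) : i}`. -/
def joinedCliques (r k : ℕ) : Finset (Finset (Fin r × Fin k)) :=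
  insert (Finset.univ.filter fun v => v.2.val = 0)
    (Finset.univ.filter fun e => e.card = r ∧ ∃ i : Fin r, ∀ v ∈ e, v.1 = i)

end Pool.Agent.MP_578b47_co
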