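import Pool.Agent.MP_578b47_co.Defs

namespace Pool.Agent.MP_578b47_co

open Finset

/-- residue class of `j` modulo `q` inside `Fin n` -/
def cls (n q j : ℕ) : Finset (Fin n) := univ.filter fun v => v.val % q = j

open Classical in
/-- the disjoint union of complete `r`-graphs on the residue classes -/
noncomputable def blocks (r n q : ℕ) : Finset (Finset (Fin n)) :=
  univ.filter fun e => e.card = r ∧ ∃ j, ∀ v ∈ e, v.val % q = j

lemma cls_card_ge {n q s j : ℕ} (hj : j < q) (h : q * s ≤ n) : s ≤ (cls n q j).card := by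
  have hlt : ∀ m : Fin s, j + q * m.val < n := by
    intro m
    have h1 : q * (m.val + 1) ≤ q * s := Nat.mul_le_mul_left _ m.2
    rw [Nat.mul_succ] at h1
    omega
  have := Finset.card_le_card_of_injOn (s := (univ : Finset (Fin s))) (t := cls n q j)
    (fun m => (⟨j + q * m.val, hlt m⟩ : Fin n)) (by
      intro m _
      simp [cls, Nat.mod_eq_of_lt hj]) (by
      intro a _ b _ hab
      simp only [Fin.mk.injEq, add_right_inj] at hab
      exact Fin.ext (Nat.eq_of_mul_eq_mul_left (by omega) hab))
  simpa using this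

lemma cls_card_le {n q s j : ℕ} (hq : 0 < q) (h : n ≤ q * (s + 1)) :
    (cls n q j).card ≤ s + 1 := by
  have := Finset.card_le_card_of_injOn (s := cls n q j) (t := range (s + 1))
    (fun v => v.val / q) (by
      intro v _
      simp only [coe_range, Set.mem_Iio]
      rw [Nat.div_lt_iff_lt_mul hq]
      have := v.2
      rw [Nat.mul_comm]; omega) (by
      intro a ha b hb hab
      simp only [cls, coe_filter, mem_univ, true_and, Set.mem_ofPred_eq] at ha hb hab
      apply Fin.ext
      rw [← Nat.mod_add_div a.val q, ← Nat.mod_add_div b.val q, ha, hb, hab])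
  simpa using this

lemma blocks_card_le {r n q s : ℕ} (hr : 0 < r) (hq : 0 < q) (h : n ≤ q * (s + 1)) :
    (blocks r n q).card ≤ q * 2 ^ (s + 1) := by
  have hsub : blocks r n q ⊆ (range q).biUnion fun j => (cls n q j).powerset := by
    intro e he
    simp only [blocks, mem_filter, mem_univ, true_and] at he
    obtain ⟨hc, j, hj⟩ := he
    have hne : e.Nonempty := card_pos.mp (by omega)
    obtain ⟨v, hv⟩ := hne
    simp only [mem_biUnion, mem_range, mem_powerset]
    refine ⟨j, ?_, ?_⟩
    · rw [← hj v hv]; exact Nat.mod_lt _ hq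
    · intro u hu; simp [cls, hj u hu]
  refine (card_le_card hsub).trans (card_biUnion_le.trans ?_)
  calc ∑ j ∈ range q, ((cls n q j).powerset).card ≤ ∑ _j ∈ range q, 2 ^ (s + 1) := by
        apply sum_le_sum
        intro j _
        rw [card_powerset]
        exact Nat.pow_le_pow_right (by norm_num) (cls_card_le hq h)
    _ = q * 2 ^ (s + 1) := by simp

lemma blocks_free {r k n q s : ℕ} (hr : 2 ≤ r) (hk : r ≤ k) (hq : 0 < q) (h : n ≤ q * (s + 1))
    (hs : s + 1 < r * k) : ¬ ContainsCopy (joinedCliques r k) (blocks r n q) := by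
  rintro ⟨f, hf, hE⟩
  have hk0 : 0 < k := by omega
  have h0 := hE (univ.filter fun v => v.2.val = 0) (by simp [joinedCliques])
  simp only [blocks, mem_filter, mem_univ, true_and] at h0
  obtain ⟨-, j, hj⟩ := h0
  have hz : ∀ i : Fin r, (f (i, ⟨0, hk0⟩)).val % q = j := by
    intro i
    apply hj
    exact mem_image_of_mem f (by simp)
  have hall : ∀ p : Fin r × Fin k, (f p).val % q = j := by
    rintro ⟨i, a⟩
    have hsub : ({(i, a), (i, ⟨0, hk0⟩)} : Finset (Fin r × Fin k)) ⊆
        univ.filter fun v => v.1 = i := by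
      intro v hv
      simp only [mem_insert, mem_singleton] at hv
      rcases hv with rfl | rfl <;> simp
    have hcard : (univ.filter fun v : Fin r × Fin k => v.1 = i).card = k := by
      have : (univ.filter fun v : Fin r × Fin k => v.1 = i) = ({i} : Finset (Fin r)) ×ˢ univ := by
        ext v
        simp only [mem_filter, mem_univ, true_and, mem_product, mem_singleton, and_true]
      rw [this]; simp
    obtain ⟨u, hu1, hu2, hu3⟩ := exists_subsuperset_card_eq (n := r) hsub
      ((card_le_two).trans hr) (by omega)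
    have hmem : u ∈ joinedCliques r k := by
      simp only [joinedCliques, mem_insert, mem_filter, mem_univ, true_and]
      right
      exact ⟨hu3, i, fun v hv => by simpa using hu2 hv⟩
    have h1 := hE u hmem
    simp only [blocks, mem_filter, mem_univ, true_and] at h1
    obtain ⟨-, j', hj'⟩ := h1
    have e1 := hj' (f (i, a)) (mem_image_of_mem f (hu1 (by simp)))
    have e2 := hj' (f (i, ⟨0, hk0⟩)) (mem_image_of_mem f (hu1 (by simp)))
    rw [e1, ← e2, hz]
  have hle := Finset.card_le_card_of_injOn (s := (univ : Finset (Fin r × Fin k))) (t := cls n q j)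
    f (by intro p _; simp [cls, hall p]) (hf.injOn)
  have := cls_card_le (j := j) hq h
  simp only [card_univ, Fintype.card_prod, Fintype.card_fin] at hle
  omega

lemma blocks_sat {r k n q : ℕ} (hr : 2 ≤ r) (hk : r ≤ k) (hq : 0 < q)
    (h : q * ((r - 1) * k) ≤ n) (e : Finset (Fin n)) (he : e.card = r) (hne : e ∉ blocks r n q) :
    ContainsCopy (joinedCliques r k) (insert e (blocks r n q)) := by
  classical
  have hk0 : 0 < k := by omega
  obtain ⟨x⟩ : Nonempty (Fin r ≃ e) := by
    rw [← Fintype.card_eq]; simp [he]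
  let c : Fin r → ℕ := fun i => (x i).val.val % q
  have hnot : ∀ j, ∃ i, c i ≠ j := by
    intro j
    by_contra hcon
    push Not at hcon
    apply hne
    simp only [blocks, mem_filter, mem_univ, true_and]
    refine ⟨he, j, fun v hv => ?_⟩
    have := hcon (x.symm ⟨v, hv⟩)
    simpa [c] using this
  have key : ∀ j : ℕ, ∃ g : {p : Fin r × Fin k // c p.1 = j} → Fin n, Function.Injective g ∧
      (∀ p, (g p).val % q = j) ∧ ∀ p, p.1.2.val = 0 → g p = (x p.1.1).val := by
    intro j
    by_cases hj : j < q
    · have hcardA : Fintype.card {p : Fin r × Fin k // c p.1 = j} ≤ (r - 1) * k := by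
        obtain ⟨i0, hi0⟩ := hnot j
        rw [Fintype.card_subtype]
        have : (univ.filter fun p : Fin r × Fin k => c p.1 = j) ⊆ (univ.erase i0) ×ˢ univ := by
          intro p hp
          simp only [mem_filter, mem_univ, true_and] at hp
          simp only [mem_product, mem_erase, mem_univ, and_true]
          rintro rfl
          exact hi0 hp
        refine (card_le_card this).trans ?_
        simp
      let S : Finset {p : Fin r × Fin k // c p.1 = j} := univ.filter fun p => p.1.2.val = 0
      let f0 : {p : Fin r × Fin k // c p.1 = j} → Fin n := fun p => (x p.1.1).val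
      have hinj : Set.InjOn f0 S := by
        intro a ha b hb hab
        simp only [S, coe_filter, mem_univ, true_and, Set.mem_ofPred_eq] at ha hb
        have h1 : a.1.1 = b.1.1 := x.injective (Subtype.ext hab)
        apply Subtype.ext
        exact Prod.ext h1 (Fin.ext (by omega))
      have himg : S.image f0 ⊆ cls n q j := by
        intro v hv
        obtain ⟨p, -, rfl⟩ := mem_image.mp hv
        simp only [cls, mem_filter, mem_univ, true_and]
        exact p.2
      obtain ⟨t, ht1, ht2, ht3⟩ := exists_subsuperset_card_eq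
        (n := Fintype.card {p : Fin r × Fin k // c p.1 = j}) himg
        (card_image_le.trans (card_le_univ _)) (hcardA.trans (cls_card_ge hj h))
      obtain ⟨g, hg⟩ := Finset.exists_equiv_extend_of_card_eq ht3.symm ht1 hinj
      refine ⟨fun p => (g p).val, fun a b hab => g.injective (Subtype.ext hab), fun p => ?_,
        fun p hp => hg p (by simp [S, hp])⟩
      have := ht2 (g p).2
      simpa [cls] using this
    · have hemp : ∀ p : {p : Fin r × Fin k // c p.1 = j}, False := by
        intro p
        have := p.2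
        have h2 : c p.1.1 < q := Nat.mod_lt _ hq
        omega
      exact ⟨fun p => (hemp p).elim, fun a => (hemp a).elim, fun p => (hemp p).elim,
        fun p => (hemp p).elim⟩
  choose g hg1 hg2 hg3 using key
  refine ⟨fun p => g (c p.1) ⟨p, rfl⟩, ?_, ?_⟩
  · intro a b hab
    have hc : c a.1 = c b.1 := by
      rw [← hg2 (c a.1) ⟨a, rfl⟩, ← hg2 (c b.1) ⟨b, rfl⟩]
      simp only at hab
      rw [hab]
    have : ∀ (j : ℕ) (hj : c b.1 = j), g (c b.1) ⟨b, rfl⟩ = g j ⟨b, hj⟩ := by
      rintro j rfl; rfl
    simp only at hab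
    rw [this (c a.1) hc.symm] at hab
    exact congrArg Subtype.val (hg1 _ hab)
  · intro u hu
    have hinj : Function.Injective (fun p : Fin r × Fin k => g (c p.1) ⟨p, rfl⟩) := by
      intro a b hab
      have hc : c a.1 = c b.1 := by
        rw [← hg2 (c a.1) ⟨a, rfl⟩, ← hg2 (c b.1) ⟨b, rfl⟩]
        simp only at hab
        rw [hab]
      have : ∀ (j : ℕ) (hj : c b.1 = j), g (c b.1) ⟨b, rfl⟩ = g j ⟨b, hj⟩ := by
        rintro j rfl; rfl
      simp only at hab
      rw [this (c a.1) hc.symm] at hab
      exact congrArg Subtype.val (hg1 _ hab)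
    simp only [joinedCliques, mem_insert, mem_filter, mem_univ, true_and] at hu
    rcases hu with rfl | ⟨hu, i, hi⟩
    · rw [mem_insert]
      left
      ext v
      simp only [mem_image, mem_filter, mem_univ, true_and]
      constructor
      · rintro ⟨p, hp, rfl⟩
        rw [hg3 _ ⟨p, rfl⟩ hp]
        exact (x p.1).2
      · intro hv
        refine ⟨(x.symm ⟨v, hv⟩, ⟨0, hk0⟩), rfl, ?_⟩
        rw [hg3 _ _ rfl]
        simp
    · rw [mem_insert]
      right
      simp only [blocks, mem_filter, mem_univ, true_and]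
      refine ⟨by rw [card_image_of_injective _ hinj, hu], c i, ?_⟩
      intro v hv
      obtain ⟨p, hp, rfl⟩ := mem_image.mp hv
      rw [hg2, hi p hp]

lemma sat_le {r k n : ℕ} (hr : 2 ≤ r) (hk : r ≤ k)
    (hn : ((r - 1) * k) * ((r - 1) * k) ≤ n) :
    sat r (joinedCliques r k) n ≤ n * 2 ^ ((r - 1) * k + 1) := by
  set s := (r - 1) * k with hs
  have hs0 : 0 < s := Nat.mul_pos (by omega) (by omega)
  have hq : s ≤ n / s := (Nat.le_div_iff_mul_le hs0).mpr hn
  have hq0 : 0 < n / s := by omega
  have h1 : n / s * s ≤ n := Nat.div_mul_le_self n s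
  have h2 : n ≤ n / s * (s + 1) := by
    have := Nat.div_add_mod n s
    have h3 := Nat.mod_lt n hs0
    rw [Nat.mul_succ, Nat.mul_comm (n / s) s]
    omega
  have h4 : s + 1 < r * k := by
    obtain ⟨r', rfl⟩ : ∃ r', r = r' + 1 := ⟨r - 1, by omega⟩
    simp only [Nat.add_sub_cancel] at hs
    rw [Nat.succ_mul, ← hs]
    omega
  have hsat : IsSaturated r (joinedCliques r k) (blocks r n (n / s)) := by
    refine ⟨fun e he => ?_, blocks_free hr hk hq0 h2 h4, fun e he hne => ?_⟩
    · simp only [blocks, mem_filter, mem_univ, true_and] at he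
      exact he.1
    · exact blocks_sat hr hk hq0 h1 e he hne
  calc sat r (joinedCliques r k) n ≤ (blocks r n (n / s)).card :=
        Nat.sInf_le ⟨_, hsat, rfl⟩
    _ ≤ n / s * 2 ^ (s + 1) := blocks_card_le (by omega) hq0 h2
    _ ≤ n * 2 ^ (s + 1) := Nat.mul_le_mul_right _ (Nat.div_le_self _ _)

open Filter Topology in
theorem tendsto_zero (r k : ℕ) (hr : 3 ≤ r) (hk : r ≤ k) :
    Tendsto (fun n : ℕ => (sat r (joinedCliques r k) n : ℝ) / (n : ℝ) ^ (r - 1)) atTop (𝓝 0) := by
  set C : ℝ := 2 ^ ((r - 1) * k + 1) with hC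
  have hlim : Tendsto (fun n : ℕ => C / (n : ℝ)) atTop (𝓝 0) := tendsto_const_div_atTop_nhds_zero_nat C
  refine squeeze_zero' (Eventually.of_forall fun n => by positivity) ?_ hlim
  filter_upwards [eventually_ge_atTop (((r - 1) * k) * ((r - 1) * k)), eventually_ge_atTop 1]
    with n hn hn1
  have h1 : (sat r (joinedCliques r k) n : ℝ) ≤ n * C := by
    have := sat_le (by omega : 2 ≤ r) hk hn
    rw [hC]; exact_mod_cast this
  have hn1' : (1 : ℝ) ≤ n := by exact_mod_cast hn1
  have hpos : (0 : ℝ) < n := by linarith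
  have h2 : (n : ℝ) ^ 2 ≤ (n : ℝ) ^ (r - 1) := pow_le_pow_right₀ hn1' (by omega)
  have hC0 : 0 ≤ C := by positivity
  calc (sat r (joinedCliques r k) n : ℝ) / (n : ℝ) ^ (r - 1) ≤ (n * C) / (n : ℝ) ^ 2 := by
        gcongr
    _ = C / n := by field_simp

end Pool.Agent.MP_578b47_co
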